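import Pool.Agent.H82.PRP.Stmts

/-!
# LPR: the projections between the lamplighter groups are compatible homomorphisms
-/

namespace Pool.Agent.H82.PRP

namespace LPR

variable {p : ℕ} [Fact p.Prime] {m m' : ℕ}

instance instNeZ (p : ℕ) [Fact p.Prime] (m : ℕ) : NeZero (p ^ m) :=
  ⟨pow_ne_zero m (Fact.out : p.Prime).ne_zero⟩

theorem proj_lamp (h : m ≤ m') (q : Lamp p m') (j : ZMod (p ^ m)) :
    (lampProj p h q).lamp j =
      ∑ i : ZMod (p ^ m'), if ZMod.castHom (pow_dvd_pow p h) (ZMod (p ^ m)) i = j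
        then q.lamp i else 0 := by
  classical
  have hs : {i : ZMod (p ^ m') | ZMod.castHom (pow_dvd_pow p h) (ZMod (p ^ m)) i = j} =
      ((Finset.univ.filter (fun i : ZMod (p ^ m') =>
        ZMod.castHom (pow_dvd_pow p h) (ZMod (p ^ m)) i = j) : Finset (ZMod (p ^ m'))) :
        Set (ZMod (p ^ m'))) := by
    ext i
    rw [Finset.coe_filter]
    exact ⟨fun hi => ⟨Finset.mem_univ _, hi⟩, fun hi => hi.2⟩
  change (∑ᶠ i ∈ {i : ZMod (p ^ m') | ZMod.castHom (pow_dvd_pow p h) (ZMod (p ^ m)) i = j},
    q.lamp i) = _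
  rw [hs, finsum_mem_coe_finset, Finset.sum_filter]

omit [Fact p.Prime] in
theorem proj_pos (h : m ≤ m') (q : Lamp p m') :
    (lampProj p h q).pos = ZMod.castHom (pow_dvd_pow p h) (ZMod (p ^ m)) q.pos := rfl

theorem proj_mul (h : m ≤ m') (a b : Lamp p m') :
    lampProj p h (a * b) = lampProj p h a * lampProj p h b := by
  classical
  ext j
  · rw [Lamp.mul_lamp, proj_lamp, proj_lamp, proj_lamp, proj_pos]
    have h1 : ∀ i : ZMod (p ^ m'),
        (if ZMod.castHom (pow_dvd_pow p h) (ZMod (p ^ m)) i = j then (a * b).lamp i else 0) =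
        (if ZMod.castHom (pow_dvd_pow p h) (ZMod (p ^ m)) i = j then a.lamp i else 0) +
        (if ZMod.castHom (pow_dvd_pow p h) (ZMod (p ^ m)) i = j then b.lamp (i - a.pos) else 0) := by
      intro i
      rw [Lamp.mul_lamp]
      split_ifs <;> simp
    rw [Finset.sum_congr rfl (fun i _ => h1 i), Finset.sum_add_distrib]
    refine congrArg (_ + ·) ?_
    refine Fintype.sum_equiv (Equiv.subRight a.pos) _ _ ?_
    intro i
    have h2 : (Equiv.subRight a.pos) i = i - a.pos := rfl
    rw [h2, map_sub]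
    by_cases hc : ZMod.castHom (pow_dvd_pow p h) (ZMod (p ^ m)) i = j
    · rw [if_pos hc, if_pos (by rw [hc])]
    · rw [if_neg hc, if_neg (by
        intro hh
        exact hc (sub_left_injective hh))]
  · rw [proj_pos, Lamp.mul_pos', Lamp.mul_pos', proj_pos, proj_pos, map_add]

theorem proj_x (h : m ≤ m') : lampProj p h (lampX p m') = lampX p m := by
  classical
  ext j
  · rw [proj_lamp]
    change (∑ i : ZMod (p ^ m'), if ZMod.castHom (pow_dvd_pow p h) (ZMod (p ^ m)) i = j
        then (0 : ZMod p) else 0) = 0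
    exact Finset.sum_eq_zero (fun i _ => ite_self _)
  · rw [proj_pos]
    exact map_one _

theorem proj_one (h : m ≤ m') : lampProj p h (1 : Lamp p m') = 1 := by
  classical
  ext j
  · rw [proj_lamp]
    change (∑ i : ZMod (p ^ m'), if ZMod.castHom (pow_dvd_pow p h) (ZMod (p ^ m)) i = j
        then (0 : ZMod p) else 0) = 0
    exact Finset.sum_eq_zero (fun i _ => ite_self _)
  · rw [proj_pos]
    exact map_zero _

theorem proj_y (h : m ≤ m') : lampProj p h (lampY p m') = lampY p m := by
  classical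
  ext j
  · rw [proj_lamp]
    have h1 : ∀ i : ZMod (p ^ m'), (lampY p m').lamp i = if i = 0 then 1 else 0 := by
      intro i
      change (Pi.single (0 : ZMod (p ^ m')) (1 : ZMod p) : ZMod (p ^ m') → ZMod p) i = _
      rw [Pi.single_apply]
    have h2 : (lampY p m).lamp j = if j = 0 then 1 else 0 := by
      change (Pi.single (0 : ZMod (p ^ m)) (1 : ZMod p) : ZMod (p ^ m) → ZMod p) j = _
      rw [Pi.single_apply]
    rw [h2, Finset.sum_eq_single (0 : ZMod (p ^ m'))]
    · rw [h1, map_zero]
      by_cases hj : j = 0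
      · rw [if_pos hj, if_pos hj.symm, if_pos rfl]
      · rw [if_neg hj, if_neg (fun hh => hj hh.symm)]
    · intro i _ hi
      rw [h1, if_neg hi]
      exact ite_self _
    · intro hh
      exact absurd (Finset.mem_univ _) hh
  · rw [proj_pos]
    exact map_zero _

end LPR

/-- LPR: the projections are compatible homomorphisms -/
theorem lpr_thm : LPRStmt := by
  intro p hp m m' h
  exact ⟨fun a b => LPR.proj_mul h a b, LPR.proj_x h, LPR.proj_y h, LPR.proj_one h⟩

end Pool.Agent.H82.PRP
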