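import Pool.Agent.H82.PRP.Stmts

/-!
# QUO: topological properties of the quotient of the free pro-p group by a closed normal subgroup
-/

namespace Pool.Agent.H82.PRP

open Filter Topology

namespace QUO

variable {p : ℕ} [Fact p.Prime] {F : Type} [Group F] [TopologicalSpace F] [IsTopologicalGroup F]
  [CompactSpace F] [T2Space F] {gen : Fin 3 → F} {D : ℕ → Subgroup F}

/-- a translated basis of neighbourhoods -/
theorem nbhd (hF : FPP p F gen D) (U : Set F) (hU : IsOpen U) (g : F) (hg : g ∈ U) :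
    ∃ n, ∀ d ∈ D n, g * d ∈ U := by
  have h1 : IsOpen ((fun x => g * x) ⁻¹' U) := hU.preimage (continuous_const_mul g)
  have h2 : (1 : F) ∈ ((fun x => g * x) ⁻¹' U) := by
    simpa using hg
  obtain ⟨n, hn⟩ := hF.basis _ h1 h2
  exact ⟨n, fun d hd => hn hd⟩

theorem sep (hF : FPP p F gen D) (N : Subgroup F) [N.Normal] (hN : IsClosed (N : Set F))
    (x y : F ⧸ N) (hxy : x ≠ y) : ∃ U : Set (F ⧸ N), IsClopen U ∧ x ∈ U ∧ y ∈ Uᶜ := by
  obtain ⟨a, rfl⟩ := QuotientGroup.mk_surjective x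
  obtain ⟨b, rfl⟩ := QuotientGroup.mk_surjective y
  have hab : a⁻¹ * b ∉ N := by
    intro hh
    exact hxy (QuotientGroup.eq.mpr hh)
  obtain ⟨n, hn⟩ := nbhd hF ((N : Set F)ᶜ) hN.isOpen_compl (a⁻¹ * b) hab
  have := hF.normal n
  have hsup : a⁻¹ * b ∉ N ⊔ D n := by
    intro hh
    obtain ⟨c, hc, d, hd, hcd⟩ := Subgroup.mem_sup_of_normal_right.mp hh
    refine hn d⁻¹ ((D n).inv_mem hd) ?_
    rw [← hcd, mul_assoc, mul_inv_cancel, mul_one]
    exact hc
  have hopen : IsOpen ((N ⊔ D n : Subgroup F) : Set F) :=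
    Subgroup.isOpen_mono (le_sup_right : D n ≤ N ⊔ D n) (hF.isOpen n)
  have hclosed : IsClosed ((N ⊔ D n : Subgroup F) : Set F) :=
    Subgroup.isClosed_of_isOpen _ hopen
  -- the clopen set
  let S : Set (F ⧸ N) := {z | ∃ g : F, (g : F ⧸ N) = z ∧ a⁻¹ * g ∈ N ⊔ D n}
  have hpre : (QuotientGroup.mk : F → F ⧸ N) ⁻¹' S =
      (fun g => a⁻¹ * g) ⁻¹' ((N ⊔ D n : Subgroup F) : Set F) := by
    ext g
    constructor
    · rintro ⟨g', hg', h2⟩
      have h3 : g'⁻¹ * g ∈ N := QuotientGroup.eq.mp hg'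
      have h4 : a⁻¹ * g = (a⁻¹ * g') * (g'⁻¹ * g) := by group
      change a⁻¹ * g ∈ N ⊔ D n
      rw [h4]
      exact (N ⊔ D n).mul_mem h2 ((le_sup_left : N ≤ N ⊔ D n) h3)
    · intro hg
      exact ⟨g, rfl, hg⟩
  have hq : IsQuotientMap (QuotientGroup.mk : F → F ⧸ N) := QuotientGroup.isQuotientMap_mk N
  refine ⟨S, ⟨?_, ?_⟩, ?_, ?_⟩
  · rw [← hq.isClosed_preimage, hpre]
    exact hclosed.preimage (continuous_const_mul _)
  · rw [← hq.isOpen_preimage, hpre]
    exact hopen.preimage (continuous_const_mul _)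
  · exact ⟨a, rfl, by rw [inv_mul_cancel]; exact (N ⊔ D n).one_mem⟩
  · intro hb
    have hb' : b ∈ (QuotientGroup.mk : F → F ⧸ N) ⁻¹' S := hb
    rw [hpre] at hb'
    exact hsup hb'

theorem totDisc (hF : FPP p F gen D) (N : Subgroup F) [N.Normal] (hN : IsClosed (N : Set F)) :
    TotallyDisconnectedSpace (F ⧸ N) := by
  have key : TotallySeparatedSpace (F ⧸ N) := by
    rw [totallySeparatedSpace_iff_exists_isClopen]
    intro x y hxy
    exact sep hF N hN x y hxy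
  exact key.totallyDisconnectedSpace

theorem proP (hF : FPP p F gen D) (N : Subgroup F) [N.Normal] : IsProP p (F ⧸ N) := by
  intro U
  have h1 : IsOpen ((U.toSubgroup.comap (QuotientGroup.mk' N) : Subgroup F) : Set F) :=
    U.isOpen'.preimage QuotientGroup.continuous_mk
  obtain ⟨n, hn⟩ := hF.basis _ h1 (U.toSubgroup.comap (QuotientGroup.mk' N)).one_mem
  have hle : D n ≤ U.toSubgroup.comap (QuotientGroup.mk' N) := fun x hx => hn hx
  obtain ⟨k, hk⟩ := hF.index n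
  have hdvd : (U.toSubgroup.comap (QuotientGroup.mk' N)).index ∣ (D n).index :=
    Subgroup.index_dvd_of_le hle
  rw [Subgroup.index_comap_of_surjective _ (QuotientGroup.mk'_surjective N), hk] at hdvd
  obtain ⟨j, _, hj⟩ := (Nat.dvd_prime_pow (Fact.out : p.Prime)).mp hdvd
  exact ⟨j, hj⟩

theorem genBy (hF : FPP p F gen D) (N : Subgroup F) [N.Normal] : GenBy (F ⧸ N) 3 := by
  refine ⟨fun i => (gen i : F ⧸ N), ?_⟩
  intro U hU hne
  obtain ⟨z, hz⟩ := hne
  obtain ⟨g, rfl⟩ := QuotientGroup.mk_surjective z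
  have h1 : IsOpen ((QuotientGroup.mk : F → F ⧸ N) ⁻¹' U) := hU.preimage QuotientGroup.continuous_mk
  obtain ⟨n, hn⟩ := nbhd hF _ h1 g hz
  have := hF.normal n
  have h2 : g ∈ Subgroup.closure (Set.range gen) ⊔ D n := by
    rw [hF.dense n]
    exact Subgroup.mem_top g
  obtain ⟨c, hc, d, hd, hcd⟩ := Subgroup.mem_sup_of_normal_right.mp h2
  have h3 : g * d⁻¹ = c := by
    rw [← hcd, mul_assoc, mul_inv_cancel, mul_one]
  have h4 : g * d⁻¹ ∈ (QuotientGroup.mk : F → F ⧸ N) ⁻¹' U := hn d⁻¹ ((D n).inv_mem hd)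
  rw [h3] at h4
  refine ⟨(c : F ⧸ N), h4, ?_⟩
  have h5 : (Subgroup.closure (Set.range gen)).map (QuotientGroup.mk' N) =
      Subgroup.closure (Set.range fun i => (gen i : F ⧸ N)) := by
    rw [MonoidHom.map_closure]
    congr 1
    ext z
    constructor
    · rintro ⟨_, ⟨i, rfl⟩, rfl⟩
      exact ⟨i, rfl⟩
    · rintro ⟨i, rfl⟩
      exact ⟨gen i, ⟨i, rfl⟩, rfl⟩
  have h6 : (c : F ⧸ N) ∈ (Subgroup.closure (Set.range gen)).map (QuotientGroup.mk' N) :=
    ⟨c, hc, rfl⟩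
  rw [h5] at h6
  exact h6

end QUO

/-- QUO: topological properties of the quotient -/
theorem quo_thm (_hLCF : LCFStmt) : QUOStmt := by
  intro p hp F _ _ _ _ _ gen D hF N _ hN
  have : IsClosed (N : Set F) := hN
  refine ⟨inferInstance, QUO.totDisc hF N hN, QUO.proP hF N, QUO.genBy hF N⟩

end Pool.Agent.H82.PRP
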